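import Pool.Agent.W811.LW.Stm

set_option autoImplicit false

/-! Project LW, part DWL -/

namespace Pool.Agent.W195.LW

open Pool.Agent.W811.LW

theorem ab2 {a b c e M N : ℝ} (h1 : |a| ≤ M) (h2 : |b| ≤ N) (h3 : |c| ≤ M) (h4 : |e| ≤ N) :
    |a * b - c * e| ≤ 2 * (M * N) := by
  have hM : 0 ≤ M := (abs_nonneg a).trans h1
  have k1 : |a * b| ≤ M * N := by
    rw [abs_mul]
    exact mul_le_mul h1 h2 (abs_nonneg _) hM
  have k2 : |c * e| ≤ M * N := by
    rw [abs_mul]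
    exact mul_le_mul h3 h4 (abs_nonneg _) hM
  have := abs_sub (a * b) (c * e)
  linarith

theorem dwl : DWL := by
  intro D c0 α β j t m y v w hD hc0 hc1 hy hv hw hcr hNv hNw
  obtain ⟨A, B, C⟩ := v
  obtain ⟨A', B', C'⟩ := w
  have hd : (2 : ℝ) ≤ (D : ℝ) := by exact_mod_cast hD
  set d : ℝ := (D : ℝ) with hdd
  have hd0 : 0 < d := by linarith
  have hd1 : 1 ≤ d := by linarith
  simp only [famW, Set.mem_setOf_eq] at hv hw
  obtain ⟨hB, hC, hBm⟩ := hv
  obtain ⟨hB', hC', hBm'⟩ := hw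
  have a1 : |aW d j t α β (A, B, C)| ≤ 8 * d ^ 4 * y := (le_max_left _ _).trans hNv
  have a2 : |bW d t (A, B, C)| ≤ 8 * d ^ 4 * y := (le_max_right _ _).trans hNv
  have a3 : |aW d j t α β (A', B', C')| ≤ 8 * d ^ 4 * y := (le_max_left _ _).trans hNw
  have a4 : |bW d t (A', B', C')| ≤ 8 * d ^ 4 * y := (le_max_right _ _).trans hNw
  have hp0 : ∀ n : ℕ, 0 < d ^ n := fun n => pow_pos hd0 n
  set x : ℝ := d ^ (2 * m) / d ^ (2 * j) with hx
  have hx0 : 0 < x := div_pos (hp0 _) (hp0 _)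
  have b1 : |(B : ℝ) / d ^ (2 * j)| ≤ x := by
    rw [abs_div, abs_of_pos (hp0 _)]
    exact div_le_div_of_nonneg_right hBm (hp0 _).le
  have b2 : |(B' : ℝ) / d ^ (2 * j)| ≤ x := by
    rw [abs_div, abs_of_pos (hp0 _)]
    exact div_le_div_of_nonneg_right hBm' (hp0 _).le
  -- the cross product
  set u : V3 := cr (A, B, C) (A', B', C') with hu
  have u1 : u.1 = B * C' - C * B' := rfl
  have u2 : u.2.1 = C * A' - A * C' := rfl
  have u3 : u.2.2 = A * B' - B * A' := rfl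
  have hdj : d ^ (2 * j) ≠ 0 := (hp0 _).ne'
  have hdt : d ^ t ≠ 0 := (hp0 _).ne'
  have i1 : d ^ (2 * j) * ((u.1 : ℝ) * α - (u.2.1 : ℝ)) =
      bW d t (A', B', C') * aW d j t α β (A, B, C) -
        bW d t (A, B, C) * aW d j t α β (A', B', C') := by
    rw [u1, u2]
    simp only [aW, bW]
    rw [pow_add]
    push_cast
    field_simp
    ring
  have i2 : aV d t β u = (B : ℝ) / d ^ (2 * j) * aW d j t α β (A', B', C') -
        (B' : ℝ) / d ^ (2 * j) * aW d j t α β (A, B, C) := by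
    simp only [aV]
    rw [u1, u3]
    simp only [aW]
    rw [pow_add]
    push_cast
    field_simp
    ring
  have i3 : bV d j t u = (B : ℝ) / d ^ (2 * j) * bW d t (A', B', C') -
        (B' : ℝ) / d ^ (2 * j) * bW d t (A, B, C) := by
    simp only [bV]
    rw [u1]
    simp only [bW]
    rw [pow_add]
    push_cast
    field_simp
  have c1 : d ^ (2 * j) * |(u.1 : ℝ) * α - (u.2.1 : ℝ)| ≤ 128 * d ^ 8 * y ^ 2 := by
    have h := ab2 a4 a1 a2 a3
    rw [← i1, abs_mul, abs_of_pos (hp0 _)] at h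
    calc _ ≤ _ := h
      _ = 128 * d ^ 8 * y ^ 2 := by ring
  have c2 : |aV d t β u| ≤ 16 * d ^ 4 * x * y := by
    have h := ab2 b1 a3 b2 a1
    rw [← i2] at h
    calc _ ≤ _ := h
      _ = 16 * d ^ 4 * x * y := by ring
  have c3 : |bV d j t u| ≤ 16 * d ^ 4 * x * y := by
    have h := ab2 b1 a4 b2 a2
    rw [← i3] at h
    calc _ ≤ _ := h
      _ = 16 * d ^ 4 * x * y := by ring
  rcases le_or_gt (d ^ (2 * j)) (128 * d ^ 8 * y ^ 2) with hcase | hcase
  · left
    have hB1 : (1 : ℝ) ≤ |(B : ℝ)| := by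
      have : (1 : ℤ) ≤ |B| := Int.one_le_abs hB
      exact_mod_cast this
    have hm1 : 1 ≤ d ^ (2 * m) := hB1.trans hBm
    have h1 : 1 / (128 * d ^ 8) ≤ x * y ^ 2 := by
      rw [div_le_iff₀ (by positivity), hx, div_mul_eq_mul_div, div_mul_eq_mul_div,
        le_div_iff₀ (hp0 _), one_mul]
      calc d ^ (2 * j) ≤ 128 * d ^ 8 * y ^ 2 := hcase
        _ = 1 * (y ^ 2 * (128 * d ^ 8)) := by ring
        _ ≤ d ^ (2 * m) * (y ^ 2 * (128 * d ^ 8)) :=
            mul_le_mul_of_nonneg_right hm1 (by positivity)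
        _ = d ^ (2 * m) * y ^ 2 * (128 * d ^ 8) := by ring
    refine le_trans ?_ h1
    apply div_le_div₀ zero_le_one hc1 (by positivity)
    have h2 : d ^ 8 ≤ d ^ 10 := pow_le_pow_right₀ hd1 (by norm_num)
    nlinarith [hp0 8]
  · right
    -- `q ≠ 0`
    have hq : u.1 ≠ 0 := by
      intro hq
      by_cases hp1 : u.2.1 = 0
      · have hdot : A * u.1 + B * u.2.1 + C * u.2.2 = 0 := by
          rw [u1, u2, u3]; ring
        rw [hq, hp1, mul_zero, mul_zero, zero_add, zero_add] at hdot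
        rcases mul_eq_zero.1 hdot with h | h
        · exact hC h
        · apply hcr
          exact Prod.ext hq (Prod.ext hp1 h)
      · have h1 : (1 : ℝ) ≤ |(u.2.1 : ℝ)| := by
          have : (1 : ℤ) ≤ |u.2.1| := Int.one_le_abs hp1
          exact_mod_cast this
        rw [hq, Int.cast_zero, zero_mul, zero_sub, abs_neg] at c1
        have h2 : d ^ (2 * j) * 1 ≤ d ^ (2 * j) * |(u.2.1 : ℝ)| :=
          mul_le_mul_of_nonneg_left h1 (hp0 _).le
        linarith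
    have hex : ∃ n : ℕ, d ^ (2 * j) < 128 * d ^ 8 * y ^ 2 * d ^ (2 * n) := by
      have hpos : 0 < 128 * d ^ 8 * y ^ 2 := by positivity
      obtain ⟨n, hn⟩ := pow_unbounded_of_one_lt (d ^ (2 * j) / (128 * d ^ 8 * y ^ 2))
        (show (1 : ℝ) < d by linarith)
      refine ⟨n, ?_⟩
      rw [div_lt_iff₀ hpos] at hn
      have h3 : d ^ n ≤ d ^ (2 * n) := pow_le_pow_right₀ hd1 (by omega)
      calc d ^ (2 * j) < d ^ n * (128 * d ^ 8 * y ^ 2) := hn
        _ ≤ d ^ (2 * n) * (128 * d ^ 8 * y ^ 2) := mul_le_mul_of_nonneg_right h3 hpos.le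
        _ = _ := mul_comm _ _
    classical
    obtain ⟨n, hn1, hn2⟩ : ∃ n : ℕ, d ^ (2 * j) < 128 * d ^ 8 * y ^ 2 * d ^ (2 * n) ∧
        ∀ k < n, ¬ d ^ (2 * j) < 128 * d ^ 8 * y ^ 2 * d ^ (2 * k) :=
      ⟨Nat.find hex, Nat.find_spec hex, fun k hk => Nat.find_min hex hk⟩
    have hn0 : n ≠ 0 := by
      rintro rfl
      rw [mul_zero, pow_zero, mul_one] at hn1
      linarith
    obtain ⟨m', rfl⟩ := Nat.exists_eq_succ_of_ne_zero hn0
    have hm' := not_lt.1 (hn2 m' (Nat.lt_succ_self m'))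
    refine ⟨m', ?_, ?_⟩
    · rw [div_le_iff₀ (hp0 _)]
      refine hn1.le.trans (le_of_eq ?_)
      have : 2 * m'.succ = 2 * m' + 2 := by omega
      rw [this, pow_add]
      ring
    · have humem : u ∈ famV d α m' := by
        refine ⟨hq, ?_⟩
        have h5 : d ^ (2 * j) * (|(u.1 : ℝ) * α - (u.2.1 : ℝ)| * d ^ (2 * m')) ≤
            d ^ (2 * j) * 1 := by
          calc d ^ (2 * j) * (|(u.1 : ℝ) * α - (u.2.1 : ℝ)| * d ^ (2 * m')) =
              (d ^ (2 * j) * |(u.1 : ℝ) * α - (u.2.1 : ℝ)|) * d ^ (2 * m') := by ring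
            _ ≤ (128 * d ^ 8 * y ^ 2) * d ^ (2 * m') :=
                mul_le_mul_of_nonneg_right c1 (hp0 _).le
            _ ≤ d ^ (2 * j) := hm'
            _ = d ^ (2 * j) * 1 := (mul_one _).symm
        exact le_of_mul_le_mul_left h5 (hp0 _)
      have hle : yV d α j t β m' ≤ NN (aV d t β) (bV d j t) u := by
        refine csInf_le ⟨0, ?_⟩ ⟨u, humem, rfl⟩
        rintro z ⟨s, -, rfl⟩
        exact (abs_nonneg _).trans (le_max_left _ _)
      refine hle.trans ?_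
      exact max_le c2 c3

end Pool.Agent.W195.LW
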